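import Mathlib

/-!
Project WH (MP_af71ff_an): a weakly homogeneous operator with a uniformly bounded homomorphic
intertwiner that is not similar to a homogeneous operator.  Common definitions.
-/

open scoped ComplexConjugate InnerProductSpace Matrix
open Filter Topology MeasureTheory Metric

namespace W58.WH

noncomputable section

/-- The group SU(1,1), matrices (α β; conj β  conj α) with |α|² - |β|² = 1. -/
@[ext] structure G where
  α : ℂ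
  β : ℂ
  h : α * conj α - β * conj β = 1

namespace G

instance : Mul G := ⟨fun g k => ⟨g.α * k.α + g.β * conj k.β, g.α * k.β + g.β * conj k.α, by
  have h1 := g.h
  have h2 := k.h
  simp only [map_add, map_mul, Complex.conj_conj]
  linear_combination (k.α * conj k.α - k.β * conj k.β) * h1 + h2⟩⟩

instance : One G := ⟨⟨1, 0, by simp⟩⟩

instance : Inv G := ⟨fun g => ⟨conj g.α, -g.β, by
  have h1 := g.h
  simp only [Complex.conj_conj, map_neg]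
  linear_combination h1⟩⟩

@[simp] theorem mul_α (g k : G) : (g * k).α = g.α * k.α + g.β * conj k.β := rfl
@[simp] theorem mul_β (g k : G) : (g * k).β = g.α * k.β + g.β * conj k.α := rfl
@[simp] theorem one_α : (1 : G).α = 1 := rfl
@[simp] theorem one_β : (1 : G).β = 0 := rfl
@[simp] theorem inv_α (g : G) : (g⁻¹).α = conj g.α := rfl
@[simp] theorem inv_β (g : G) : (g⁻¹).β = -g.β := rfl

instance : Group G where
  mul_assoc a b c := by
    ext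
    · simp; ring
    · simp; ring
  one_mul a := by ext <;> simp
  mul_one a := by ext <;> simp
  inv_mul_cancel a := by
    have h1 := a.h
    ext
    · simp
      linear_combination h1
    · simp
      ring

/-- -g -/
def neg (g : G) : G := ⟨-g.α, -g.β, by
  have h1 := g.h
  simp only [map_neg]
  linear_combination h1⟩

@[simp] theorem neg_α (g : G) : g.neg.α = -g.α := rfl
@[simp] theorem neg_β (g : G) : g.neg.β = -g.β := rfl

instance : TopologicalSpace G := TopologicalSpace.induced (fun g => (g.α, g.β)) inferInstance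

/-- Action on ℂ by Möbius transformation. -/
def act (g : G) (z : ℂ) : ℂ := (g.α * z + g.β) / (conj g.β * z + conj g.α)

/-- |g'(z)| on the unit circle (in fact at every point where the denominator does not vanish). -/
def jac (g : G) (z : ℂ) : ℝ := (‖conj g.β * z + conj g.α‖ ^ 2)⁻¹

/-- rotation by e^{iθ} -/
def rot (θ : ℝ) : G := ⟨Complex.exp (((θ / 2 : ℝ) : ℂ) * Complex.I), 0, by
  rw [← Complex.exp_conj, ← Complex.exp_add, map_mul, Complex.conj_ofReal, Complex.conj_I]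
  simp⟩

/-- hyperbolic element z ↦ (z cosh s + sinh s)/(z sinh s + cosh s) -/
def hyp (s : ℝ) : G := ⟨((Real.cosh s : ℝ) : ℂ), ((Real.sinh s : ℝ) : ℂ), by
  rw [Complex.conj_ofReal, Complex.conj_ofReal]
  have := Real.cosh_sq s
  have h2 : Real.cosh s * Real.cosh s - Real.sinh s * Real.sinh s = 1 := by nlinarith
  exact_mod_cast h2⟩

@[simp] theorem rot_α (θ : ℝ) : (rot θ).α = Complex.exp (((θ / 2 : ℝ) : ℂ) * Complex.I) := rfl
@[simp] theorem rot_β (θ : ℝ) : (rot θ).β = 0 := rfl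
@[simp] theorem hyp_α (s : ℝ) : (hyp s).α = ((Real.cosh s : ℝ) : ℂ) := rfl
@[simp] theorem hyp_β (s : ℝ) : (hyp s).β = ((Real.sinh s : ℝ) : ℂ) := rfl

end G

section ops

variable {H : Type*} [NormedAddCommGroup H] [InnerProductSpace ℂ H] [CompleteSpace H]

/-- α T + β -/
def Num (g : G) (T : H →L[ℂ] H) : H →L[ℂ] H := g.α • T + g.β • (1 : H →L[ℂ] H)

/-- conj β T + conj α -/
def Den (g : G) (T : H →L[ℂ] H) : H →L[ℂ] H :=
  (conj g.β) • T + (conj g.α) • (1 : H →L[ℂ] H)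

/-- A S = g(S) A, cleared of denominators. -/
def Intw (g : G) (S A : H →L[ℂ] H) : Prop := Den g S * A * S = Num g S * A

/-- weak operator convergence of a family along a filter -/
def WOT {ι : Type*} (F : Filter ι) (A : ι → H →L[ℂ] H) (B : H →L[ℂ] H) : Prop :=
  ∀ x y : H, Tendsto (fun i => ⟪x, A i y⟫_ℂ) F (𝓝 ⟪x, B y⟫_ℂ)

/-- rank one operator x ↦ ⟪w, x⟫ v -/
def rk (v w : H) : H →L[ℂ] H := (innerSL ℂ w).smulRight v

/-- integer powers of T, with T' its inverse -/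
def tz (T T' : H →L[ℂ] H) : ℤ → H →L[ℂ] H
  | Int.ofNat n => T ^ n
  | Int.negSucc n => T' ^ (n + 1)

/-- The block shift model. -/
structure Model (b : HilbertBasis (ℤ × Fin 2) ℂ H) (r l : ℤ → ℝ) (T T' J : H →L[ℂ] H) :
    Prop where
  r0 : r 0 = 1
  l0 : l 0 = 0
  rpos : ∀ n, 0 < r n
  r_top : Tendsto r cofinite atTop
  l_top : Tendsto l cofinite atTop
  r_ratio : Tendsto (fun n => r (n + 1) / r n) cofinite (𝓝 1)
  l_diff : Tendsto (fun n => l (n + 1) - l n) cofinite (𝓝 0)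
  l_r : Tendsto (fun n => l n / r n) cofinite (𝓝 0)
  TT' : T * T' = 1
  T'T : T' * T = 1
  grow : ∃ K : ℝ, ∀ j : ℕ, ‖T ^ j‖ ≤ K * ((j : ℝ) + 1) ^ 3 ∧ ‖T' ^ j‖ ≤ K * ((j : ℝ) + 1) ^ 3
  T0 : ∀ n : ℤ, T (b (n, 0)) = ((r (n + 1) / r n : ℝ) : ℂ) • b (n + 1, 0)
  T1 : ∀ n : ℤ, T (b (n, 1)) =
    ((r (n + 1) / r n : ℝ) : ℂ) • (b (n + 1, 1) + ((l (n + 1) - l n : ℝ) : ℂ) • b (n + 1, 0))
  J0 : ∀ n : ℤ, J (b (n, 0)) = 0
  J1 : ∀ n : ℤ, J (b (n, 1)) = b (n, 0)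

/-- C has the Toeplitz form C_{mn} = (r_m/r_n) (1 + l_m J)(y_{m-n} + x_{m-n} J)(1 - l_n J). -/
def Toep (b : HilbertBasis (ℤ × Fin 2) ℂ H) (r l : ℤ → ℝ) (C : H →L[ℂ] H) (y x : ℤ → ℂ) : Prop :=
  ∀ m n : ℤ,
    ⟪b (m, 0), C (b (n, 0))⟫_ℂ = ((r m / r n : ℝ) : ℂ) * y (m - n) ∧
    ⟪b (m, 1), C (b (n, 1))⟫_ℂ = ((r m / r n : ℝ) : ℂ) * y (m - n) ∧
    ⟪b (m, 1), C (b (n, 0))⟫_ℂ = 0 ∧
    ⟪b (m, 0), C (b (n, 1))⟫_ℂ =
      ((r m / r n : ℝ) : ℂ) * (x (m - n) + ((l m - l n : ℝ) : ℂ) * y (m - n))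

/-- The standard rotations. -/
structure Rots (b : HilbertBasis (ℤ × Fin 2) ℂ H) (R : ℝ → H →L[ℂ] H) : Prop where
  app : ∀ (θ : ℝ) (n : ℤ) (i : Fin 2),
    R θ (b (n, i)) = Complex.exp (((n : ℝ) * θ : ℝ) * Complex.I) • b (n, i)
  uni : ∀ θ, R θ ∈ unitary (H →L[ℂ] H)
  add : ∀ θ η, R (θ + η) = R θ * R η
  zero : R 0 = 1
  per : ∀ θ, R (θ + 2 * Real.pi) = R θ
  cont : ∀ x, Continuous (fun θ => R θ x)

/-- The explicit family of intertwiners of T. -/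
structure Gam (T J : H →L[ℂ] H) (Γ Γi : G → H →L[ℂ] H) : Prop where
  mul_inv : ∀ g, Γ g * Γi g = 1
  inv_mul : ∀ g, Γi g * Γ g = 1
  intw : ∀ g, Intw g T (Γ g)
  comm : ∀ g, Γ g * J = J * Γ g
  bdd : ∃ K : ℝ, ∀ g, ‖Γ g‖ ≤ K ∧ ‖Γi g‖ ≤ K
  cont_inv : ∀ x, Continuous (fun g => Γi g x)
  cont_adj : ∀ x, Continuous (fun g => ContinuousLinearMap.adjoint (Γ g) x)

/-- T is similar to S through X, and the U g are unitary intertwiners for S. -/
structure Sim (T S X Xi : H →L[ℂ] H) (U : G → H →L[ℂ] H) : Prop where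
  XXi : X * Xi = 1
  XiX : Xi * X = 1
  hS : S = Xi * T * X
  uni : ∀ g, U g ∈ unitary (H →L[ℂ] H)
  intw : ∀ g, Intw g S (U g)

/-- the commutant of S, S* is trivial -/
def Irr (S : H →L[ℂ] H) : Prop :=
  ∀ M : H →L[ℂ] H, M * S = S * M →
    M * ContinuousLinearMap.adjoint S = ContinuousLinearMap.adjoint S * M → ∃ c : ℂ, M = c • 1

/-- the family U is strongly continuous up to phases -/
def PCont {X : Type*} [TopologicalSpace X] (U : X → H →L[ℂ] H) : Prop :=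
  ∀ (𝒰 : Ultrafilter X) (g : X), (𝒰 : Filter X) ≤ 𝓝 g →
    ∃ c : ℂ, ‖c‖ = 1 ∧ ∀ x : H, Tendsto (fun h => U h x) 𝒰 (𝓝 (c • U g x))

end ops

/-! ### the circle side -/

/-- normalised arc length on the unit circle, as a measure on ℂ -/
def mS : Measure ℂ :=
  Measure.map (fun θ : ℝ => Complex.exp (((2 * Real.pi * θ : ℝ) : ℂ) * Complex.I))
    (volume.restrict (Set.Ioc (0 : ℝ) 1))

/-- Fourier coefficients -/
def fc (f : ℂ → ℂ) (n : ℤ) : ℂ := ∫ z, f z * z ^ (-n) ∂mS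

/-- a_n = ∏_{k<|n|} (k+1/4)/(k+3/4) -/
def aa (n : ℤ) : ℝ :=
  ∏ k ∈ Finset.range n.natAbs, (((k : ℝ) + 1 / 4) / ((k : ℝ) + 3 / 4))

/-- λ_n = (1/2) ∑_{k<|n|} (1/(k+1/4) + 1/(k+3/4)) -/
def lam (n : ℤ) : ℝ :=
  ∑ k ∈ Finset.range n.natAbs, (1 / 2 : ℝ) * (1 / ((k : ℝ) + 1 / 4) + 1 / ((k : ℝ) + 3 / 4))

/-- ℓ²(ℤ) -/
abbrev E : Type := lp (fun _ : ℤ => ℂ) 2

/-- the standard basis vector of ℓ²(ℤ) -/
def ee (n : ℤ) : E := lp.single 2 n (1 : ℂ)

/-- ℓ²(ℤ) ⊕ ℓ²(ℤ) -/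
abbrev H2 : Type := WithLp 2 (E × E)

open Classical in
/-- the embedding f ↦ (√a_n f_n) (0 if not square summable) -/
def jE (f : ℂ → ℂ) : E :=
  if h : Memℓp (fun n : ℤ => ((Real.sqrt (aa n) : ℝ) : ℂ) * fc f n) 2 then ⟨_, h⟩ else 0

open Classical in
/-- f ↦ (λ_n √a_n f_n) (0 if not square summable) -/
def jL (f : ℂ → ℂ) : E :=
  if h : Memℓp (fun n : ℤ => ((lam n * Real.sqrt (aa n) : ℝ) : ℂ) * fc f n) 2 then ⟨_, h⟩ else 0

/-- (π(g) f)(z) = |g'(z)|^{3/4} f(g z) -/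
def pg (g : G) (f : ℂ → ℂ) (z : ℂ) : ℂ :=
  ((g.jac z ^ (3 / 4 : ℝ) : ℝ) : ℂ) * f (g.act z)

/-- multiplication by log |g'| -/
def lg (g : G) (f : ℂ → ℂ) (z : ℂ) : ℂ := ((Real.log (g.jac z) : ℝ) : ℂ) * f z

/-- continuity on the unit circle -/
def CS (f : ℂ → ℂ) : Prop := ContinuousOn f (sphere 0 1)

/-- block operators on ℓ² ⊕ ℓ² : (x, y) ↦ (A x + B y, C x + D y) -/
def blk (A B C D : E →L[ℂ] E) : H2 →L[ℂ] H2 :=
  ((WithLp.prodContinuousLinearEquiv 2 ℂ E E).symm : (E × E) →L[ℂ] H2).comp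
    ((((A.comp (ContinuousLinearMap.fst ℂ E E)) + (B.comp (ContinuousLinearMap.snd ℂ E E))).prod
      ((C.comp (ContinuousLinearMap.fst ℂ E E)) + (D.comp (ContinuousLinearMap.snd ℂ E E)))).comp
      ((WithLp.prodContinuousLinearEquiv 2 ℂ E E) : H2 →L[ℂ] (E × E)))

/-- the vector (x, y) of ℓ² ⊕ ℓ² -/
def pr (x y : E) : H2 := WithLp.toLp 2 (x, y)

/-- J (x, y) = (y, 0) -/
def Jop : H2 →L[ℂ] H2 := blk 0 1 0 0

/-- F (x, y) = (y, x) -/
def Fop : H2 →L[ℂ] H2 := blk 0 1 1 0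

end

end W58.WH
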