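import Pool.Agent.W58.WH.Defs

/-!
Project WH (MP_af71ff_an): statements of the subtasks.
-/

open scoped ComplexConjugate InnerProductSpace Matrix ComplexOrder
open Filter Topology MeasureTheory Metric

namespace W58.WH

noncomputable section

/-! ## Negative side -/

/-- N1: operators commuting with T have Toeplitz form. -/
def Stm_N1 : Prop := ∀ (H : Type) [NormedAddCommGroup H] [InnerProductSpace ℂ H] [CompleteSpace H]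
  (b : HilbertBasis (ℤ × Fin 2) ℂ H) (r l : ℤ → ℝ) (T T' J : H →L[ℂ] H), Model b r l T T' J →
  ∀ C : H →L[ℂ] H, C * T = T * C → ∃ y x : ℤ → ℂ, Toep b r l C y x

/-- N1c: two operators of Toeplitz form commute, and each commutes with J, and Toeplitz operators
commute with T. -/
def Stm_N1c : Prop := ∀ (H : Type) [NormedAddCommGroup H] [InnerProductSpace ℂ H] [CompleteSpace H]
  (b : HilbertBasis (ℤ × Fin 2) ℂ H) (r l : ℤ → ℝ) (T T' J : H →L[ℂ] H), Model b r l T T' J →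
  ∀ (C : H →L[ℂ] H) (y x : ℤ → ℂ), Toep b r l C y x →
    C * J = J * C ∧ C * T = T * C ∧
    ∀ (D : H →L[ℂ] H) (u v : ℤ → ℂ), Toep b r l D u v → C * D = D * C

/-- W: bounded families have WOT limits along ultrafilters -/
def Stm_wot : Prop := ∀ (H : Type) [NormedAddCommGroup H] [InnerProductSpace ℂ H] [CompleteSpace H]
  (ι : Type) (𝒰 : Ultrafilter ι) (A : ι → H →L[ℂ] H) (K : ℝ), (∀ i, ‖A i‖ ≤ K) →
  ∃ B : H →L[ℂ] H, ‖B‖ ≤ K ∧ WOT (𝒰 : Filter ι) A B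

/-- N2: for bounded families commuting with T, WOT convergence implies strong convergence of the
adjoints. -/
def Stm_N2 : Prop := ∀ (H : Type) [NormedAddCommGroup H] [InnerProductSpace ℂ H] [CompleteSpace H]
  (b : HilbertBasis (ℤ × Fin 2) ℂ H) (r l : ℤ → ℝ) (T T' J : H →L[ℂ] H), Model b r l T T' J →
  ∀ (ι : Type) (𝒰 : Ultrafilter ι) (C : ι → H →L[ℂ] H) (D : H →L[ℂ] H) (K : ℝ),
    (∀ i, ‖C i‖ ≤ K) → (∀ i, C i * T = T * C i) → WOT (𝒰 : Filter ι) C D →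
    ∀ x : H, Tendsto (fun i => ContinuousLinearMap.adjoint (C i) x) (𝒰 : Filter ι)
      (𝓝 (ContinuousLinearMap.adjoint D x))

/-- R: the standard rotations exist (diagonal operators). -/
def Stm_R : Prop := ∀ (H : Type) [NormedAddCommGroup H] [InnerProductSpace ℂ H] [CompleteSpace H]
  (b : HilbertBasis (ℤ × Fin 2) ℂ H), ∃ R : ℝ → H →L[ℂ] H, Rots b R

/-- N3a: diagonals of an operator all of whose rotates commute with D commute with D. -/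
def Stm_N3a : Prop := ∀ (H : Type) [NormedAddCommGroup H] [InnerProductSpace ℂ H] [CompleteSpace H]
  (b : HilbertBasis (ℤ × Fin 2) ℂ H) (r l : ℤ → ℝ) (T T' J : H →L[ℂ] H), Model b r l T T' J →
  ∀ (R : ℝ → H →L[ℂ] H), Rots b R →
  ∀ (C D : H →L[ℂ] H) (y x : ℤ → ℂ), Toep b r l C y x →
    (∀ θ : ℝ, (R (-θ) * C * R θ) * D = D * (R (-θ) * C * R θ)) →
    ∀ k : ℤ, (tz T T' k * (y k • (1 : H →L[ℂ] H) + x k • J)) * D =
      D * (tz T T' k * (y k • (1 : H →L[ℂ] H) + x k • J))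

/-- N3b: if a conjugate of T^k (y + x J) is normal then it is a scalar (k = 0), or 0 (k ≠ 0). -/
def Stm_N3b : Prop := ∀ (H : Type) [NormedAddCommGroup H] [InnerProductSpace ℂ H] [CompleteSpace H]
  (b : HilbertBasis (ℤ × Fin 2) ℂ H) (r l : ℤ → ℝ) (T T' J : H →L[ℂ] H), Model b r l T T' J →
  ∀ (X Xi : H →L[ℂ] H), X * Xi = 1 → Xi * X = 1 → ∀ (k : ℤ) (y x : ℂ),
    IsStarNormal (Xi * (tz T T' k * (y • (1 : H →L[ℂ] H) + x • J)) * X) →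
    x = 0 ∧ (k ≠ 0 → y = 0)

/-- N3: the commutant of {S, S*} is trivial. -/
def Stm_N3 : Prop := ∀ (H : Type) [NormedAddCommGroup H] [InnerProductSpace ℂ H] [CompleteSpace H]
  (b : HilbertBasis (ℤ × Fin 2) ℂ H) (r l : ℤ → ℝ) (T T' J : H →L[ℂ] H), Model b r l T T' J →
  ∀ (S X Xi : H →L[ℂ] H) (U : G → H →L[ℂ] H), Sim T S X Xi U → Irr S

/-- the spectrum of the model operator is in the closed disc. -/
def Stm_spec : Prop := ∀ (H : Type) [NormedAddCommGroup H] [InnerProductSpace ℂ H] [CompleteSpace H]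
  (b : HilbertBasis (ℤ × Fin 2) ℂ H) (r l : ℤ → ℝ) (T T' J : H →L[ℂ] H), Model b r l T T' J →
  spectrum ℂ T ⊆ closedBall 0 1 ∧ T * J = J * T ∧ J * J = 0 ∧
  (∀ g : G, IsUnit (Den g T)) ∧
  (∀ (k n : ℤ), tz T T' k (b (n, 0)) = ((r (n + k) / r n : ℝ) : ℂ) • b (n + k, 0)) ∧
  (∀ (k n : ℤ), tz T T' k (b (n, 1)) = ((r (n + k) / r n : ℝ) : ℂ) •
    (b (n + k, 1) + ((l (n + k) - l n : ℝ) : ℂ) • b (n + k, 0)))

/-- N0: Möbius calculus facts for S = Xi T X, T in the model (spectrum in the closed disc). -/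
def Stm_N0 : Prop := ∀ (H : Type) [NormedAddCommGroup H] [InnerProductSpace ℂ H] [CompleteSpace H]
  (b : HilbertBasis (ℤ × Fin 2) ℂ H) (r l : ℤ → ℝ) (T T' J : H →L[ℂ] H), Model b r l T T' J →
  ∀ (S X Xi : H →L[ℂ] H), X * Xi = 1 → Xi * X = 1 → S = Xi * T * X →
    (∀ g : G, IsUnit (Den g S)) ∧
    (∀ (g h : G) (A B : H →L[ℂ] H), Intw g S A → Intw h S B → Intw (g * h) S (B * A)) ∧
    (∀ (g : G) (A : H →L[ℂ] H), A ∈ unitary (H →L[ℂ] H) → Intw g S A →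
      Intw g⁻¹ S (ContinuousLinearMap.adjoint A)) ∧
    (∀ (g : G) (A B : H →L[ℂ] H), A ∈ unitary (H →L[ℂ] H) → B ∈ unitary (H →L[ℂ] H) →
      Intw g S A → Intw g S B →
      (ContinuousLinearMap.adjoint A * B) * S = S * (ContinuousLinearMap.adjoint A * B) ∧
      (ContinuousLinearMap.adjoint A * B) * ContinuousLinearMap.adjoint S =
        ContinuousLinearMap.adjoint S * (ContinuousLinearMap.adjoint A * B))

/-- N4: the unitary intertwiners are strongly continuous up to phases. -/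
def Stm_N4 : Prop := ∀ (H : Type) [NormedAddCommGroup H] [InnerProductSpace ℂ H] [CompleteSpace H]
  (b : HilbertBasis (ℤ × Fin 2) ℂ H) (r l : ℤ → ℝ) (T T' J : H →L[ℂ] H), Model b r l T T' J →
  ∀ (Γ Γi : G → H →L[ℂ] H), Gam T J Γ Γi →
  ∀ (S X Xi : H →L[ℂ] H) (U : G → H →L[ℂ] H), Sim T S X Xi U → Irr S → PCont U

/-- N4b: norm continuity of U P U* for P of finite rank. -/
def Stm_N4b : Prop := ∀ (H : Type) [NormedAddCommGroup H] [InnerProductSpace ℂ H] [CompleteSpace H]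
  (X : Type) [TopologicalSpace X] (U : X → H →L[ℂ] H), PCont U →
  ∀ (κ : Type) [Fintype κ] (v w : κ → H),
    Continuous (fun g => U g * (∑ k, rk (v k) (w k)) * ContinuousLinearMap.adjoint (U g))

/-- N5a: a nonzero compact self-adjoint operator commuting with a periodic projective
representation of ℝ. -/
def Stm_N5a : Prop := ∀ (H : Type) [NormedAddCommGroup H] [InnerProductSpace ℂ H] [CompleteSpace H]
  [Nontrivial H] (V : ℝ → H →L[ℂ] H), (∀ θ, V θ ∈ unitary (H →L[ℂ] H)) →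
  (∀ θ η, ∃ c : ℂ, ‖c‖ = 1 ∧ V (θ + η) = c • (V θ * V η)) →
  (∀ θ, ∃ c : ℂ, ‖c‖ = 1 ∧ V (θ + 2 * Real.pi) = c • V θ) → PCont V →
  ∃ B : H →L[ℂ] H, IsCompactOperator B ∧ IsSelfAdjoint B ∧ B ≠ 0 ∧ ∀ θ, V θ * B = B * V θ

/-- N5b: a nonzero compact self-adjoint operator has a nonzero finite dimensional eigenspace. -/
def Stm_N5b : Prop := ∀ (H : Type) [NormedAddCommGroup H] [InnerProductSpace ℂ H] [CompleteSpace H]
  (B : H →L[ℂ] H), IsCompactOperator B → IsSelfAdjoint B → B ≠ 0 →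
  ∃ μ : ℂ, Module.End.eigenspace (B : H →ₗ[ℂ] H) μ ≠ ⊥ ∧
    FiniteDimensional ℂ (Module.End.eigenspace (B : H →ₗ[ℂ] H) μ)

/-- N5c: projective representations of ℝ on a nonzero finite dimensional space have a common
eigenvector. -/
def Stm_N5c : Prop := ∀ (F : Type) [AddCommGroup F] [Module ℂ F] [FiniteDimensional ℂ F]
  [Nontrivial F] (A : ℝ → F →ₗ[ℂ] F), (∀ θ, Function.Bijective (A θ)) →
  (∀ θ η, ∃ c : ℂ, c ≠ 0 ∧ A (θ + η) = c • (A θ * A η)) →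
  ∃ v : F, v ≠ 0 ∧ ∀ θ, ∃ c : ℂ, A θ v = c • v

/-- N5: normalised rotations: a strongly continuous unitary representation V of the circle. -/
def Stm_N5 : Prop := ∀ (H : Type) [NormedAddCommGroup H] [InnerProductSpace ℂ H] [CompleteSpace H]
  [Nontrivial H] (V : ℝ → H →L[ℂ] H), (∀ θ, V θ ∈ unitary (H →L[ℂ] H)) →
  (∀ θ η, ∃ c : ℂ, ‖c‖ = 1 ∧ V (θ + η) = c • (V θ * V η)) →
  (∀ θ, ∃ c : ℂ, ‖c‖ = 1 ∧ V (θ + 2 * Real.pi) = c • V θ) → PCont V →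
  ∃ W : ℝ → H →L[ℂ] H, (∀ θ, ∃ c : ℂ, ‖c‖ = 1 ∧ W θ = c • V θ) ∧ W 0 = 1 ∧
    (∀ θ η, W (θ + η) = W θ * W η) ∧ (∀ θ, W (θ + 2 * Real.pi) = W θ) ∧
    ∀ x, Continuous (fun θ => W θ x)

/-- weak integral -/
def Stm_int : Prop := ∀ (H : Type) [NormedAddCommGroup H] [InnerProductSpace ℂ H] [CompleteSpace H]
  (F : ℝ → H →L[ℂ] H) (K : ℝ), (∀ θ, ‖F θ‖ ≤ K) → (∀ x, Continuous (fun θ => F θ x)) →
  ∃ V : H →L[ℂ] H, ∀ x, V x = ∫ θ in (0 : ℝ)..(2 * Real.pi), F θ x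

/-- N6: after changing X, the unitary rotations become the standard ones. -/
def Stm_N6 : Prop := ∀ (H : Type) [NormedAddCommGroup H] [InnerProductSpace ℂ H] [CompleteSpace H]
  (b : HilbertBasis (ℤ × Fin 2) ℂ H) (r l : ℤ → ℝ) (T T' J : H →L[ℂ] H), Model b r l T T' J →
  ∀ (R : ℝ → H →L[ℂ] H), Rots b R →
  ∀ (S X Xi : H →L[ℂ] H), X * Xi = 1 → Xi * X = 1 → S = Xi * T * X →
  ∀ (W : ℝ → H →L[ℂ] H), (∀ θ, W θ ∈ unitary (H →L[ℂ] H)) →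
    (∀ θ, W θ * S = Complex.exp ((θ : ℂ) * Complex.I) • (S * W θ)) → W 0 = 1 →
    (∀ θ η, W (θ + η) = W θ * W η) → (∀ θ, W (θ + 2 * Real.pi) = W θ) →
    (∀ x, Continuous (fun θ => W θ x)) →
  ∃ Y Yi : H →L[ℂ] H, Y * Yi = 1 ∧ Yi * Y = 1 ∧ S = Yi * T * Y ∧
    ∀ θ, ∃ c : ℂ, ‖c‖ = 1 ∧ W θ = c • (Yi * R θ * Y)

/-- the data after the change of X: orthogonal projections P n = Xi π_n X. -/
structure Dec {H : Type} [NormedAddCommGroup H] [InnerProductSpace ℂ H] [CompleteSpace H]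
    (b : HilbertBasis (ℤ × Fin 2) ℂ H) (T S J X Xi : H →L[ℂ] H) (U : G → H →L[ℂ] H)
    (P : ℤ → H →L[ℂ] H) : Prop where
  XXi : X * Xi = 1
  XiX : Xi * X = 1
  hS : S = Xi * T * X
  /-- P n is the sum of two rank ones: P n = ∑_i ⟪b(n,i), X ·⟫ Xi b(n,i) -/
  hP : ∀ n, P n = ∑ i : Fin 2, rk (Xi (b (n, i))) (ContinuousLinearMap.adjoint X (b (n, i)))
  app : ∀ (m n : ℤ) (i : Fin 2), P m (Xi (b (n, i))) = if m = n then Xi (b (n, i)) else 0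
  adj : ∀ n, ContinuousLinearMap.adjoint (P n) = P n
  idem : ∀ n, P n * P n = P n
  orth : ∀ m n, m ≠ n → P m * P n = 0
  shift : ∀ n, S * P n = P (n + 1) * S
  commJ : ∀ n, (Xi * J * X) * P n = P n * (Xi * J * X)
  rotc : ∀ θ n, U (G.rot θ) * P n = P n * U (G.rot θ)
  rotQ : ∀ Q : H →L[ℂ] H, (∀ θ, U (G.rot θ) * Q = Q * U (G.rot θ)) → ∀ n, P n * Q = Q * P n

/-- N6c: the projections. -/
def Stm_N6c : Prop := ∀ (H : Type) [NormedAddCommGroup H] [InnerProductSpace ℂ H] [CompleteSpace H]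
  (b : HilbertBasis (ℤ × Fin 2) ℂ H) (r l : ℤ → ℝ) (T T' J : H →L[ℂ] H), Model b r l T T' J →
  ∀ (R : ℝ → H →L[ℂ] H), Rots b R →
  ∀ (S X Xi : H →L[ℂ] H) (U : G → H →L[ℂ] H), Sim T S X Xi U →
    (∀ θ, ∃ c : ℂ, ‖c‖ = 1 ∧ U (G.rot θ) = c • (Xi * R θ * X)) →
  ∃ P : ℤ → H →L[ℂ] H, Dec b T S J X Xi U P

/-- N7b: smoothing: translation of a weighted integral over the disc by a hyperbolic element. -/
def Stm_N7b : Prop := ∀ (B : Type) [NormedAddCommGroup B] [NormedSpace ℝ B] [CompleteSpace B]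
  (F : ℂ → B), ContinuousOn F (ball 0 1) → (∀ w ∈ ball (0 : ℂ) 1, ‖F w‖ ≤ 1) →
  ∀ η : ℝ, 0 < η → η ≤ 1 / 2 → ∃ C : ℝ, ∀ s : ℝ, |s| ≤ 1 →
    ‖(∫ w in ball (0 : ℂ) 1, max 0 (η - ‖w‖) • F ((G.hyp s)⁻¹.act w)) -
      ∫ w in ball (0 : ℂ) 1, max 0 (η - ‖w‖) • F w‖ ≤ C * |s|

/-- N7a: the projections P^{(w)} indexed by the disc. -/
def Stm_N7a : Prop := ∀ (H : Type) [NormedAddCommGroup H] [InnerProductSpace ℂ H] [CompleteSpace H]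
  (U : G → H →L[ℂ] H) (P : H →L[ℂ] H), (∀ g, U g ∈ unitary (H →L[ℂ] H)) →
  (∀ g h, ∃ c : ℂ, ‖c‖ = 1 ∧ U (g * h) = c • (U h * U g)) →
  (∀ θ, U (G.rot θ) * P = P * U (G.rot θ)) →
  Continuous (fun g => U g * P * ContinuousLinearMap.adjoint (U g)) → ‖P‖ ≤ 1 →
  ∃ F : ℂ → H →L[ℂ] H, ContinuousOn F (ball 0 1) ∧ (∀ w ∈ ball (0 : ℂ) 1, ‖F w‖ ≤ 1) ∧ F 0 = P ∧
    ∀ (g : G), ∀ w ∈ ball (0 : ℂ) 1,
      U g * F w * ContinuousLinearMap.adjoint (U g) = F (g⁻¹.act w)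

/-- N7: smoothing estimate. -/
def Stm_N7 : Prop := ∀ (H : Type) [NormedAddCommGroup H] [InnerProductSpace ℂ H] [CompleteSpace H]
  (U : G → H →L[ℂ] H) (P : H →L[ℂ] H), (∀ g, U g ∈ unitary (H →L[ℂ] H)) →
  (∀ g h, ∃ c : ℂ, ‖c‖ = 1 ∧ U (g * h) = c • (U h * U g)) →
  (∀ θ, U (G.rot θ) * P = P * U (G.rot θ)) →
  Continuous (fun g => U g * P * ContinuousLinearMap.adjoint (U g)) →
  ContinuousLinearMap.adjoint P = P → P * P = P →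
  (∀ Q : H →L[ℂ] H, (∀ θ, U (G.rot θ) * Q = Q * U (G.rot θ)) → P * Q = Q * P) →
  ∃ C δ : ℝ, 0 < δ ∧ ∀ s : ℝ, |s| < δ → ‖(1 - P) * U (G.hyp s) * P‖ ≤ C * |s|

/-- N8a: the Lie algebra operators. -/
def Stm_N8a : Prop := ∀ (H : Type) [NormedAddCommGroup H] [InnerProductSpace ℂ H] [CompleteSpace H]
  (b : HilbertBasis (ℤ × Fin 2) ℂ H) (T S J X Xi : H →L[ℂ] H) (U : G → H →L[ℂ] H)
  (P : ℤ → H →L[ℂ] H), Dec b T S J X Xi U P →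
  (∀ g, U g ∈ unitary (H →L[ℂ] H)) → (∀ g, Intw g S (U g)) →
  (∀ g, U g * (Xi * J * X) = (Xi * J * X) * U g) → PCont U → (∃ c : ℂ, U 1 = c • 1) →
  (∀ n, ∃ C δ : ℝ, 0 < δ ∧ ∀ s : ℝ, |s| < δ → ‖(1 - P n) * U (G.hyp s) * P n‖ ≤ C * |s|) →
  ∃ e f : ℤ → H →L[ℂ] H, ∀ n : ℤ,
    e n = P (n + 1) * e n ∧ e n = e n * P n ∧ f n = P (n - 1) * f n ∧ f n = f n * P n ∧
    e n * (Xi * J * X) = (Xi * J * X) * e n ∧ f n * (Xi * J * X) = (Xi * J * X) * f n ∧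
    e (n + 1) * S + S * S * P n = S * e n ∧
    f (n + 1) * S = S * f n + P n ∧
    f (n + 1) = - ContinuousLinearMap.adjoint (e n)

/-- N8: the recursion for the Gram matrices. x (n,0) = r_n b(n,0), x(n,1) = r_n (b(n,1) + l_n b(n,0)). -/
def xv {H : Type} [NormedAddCommGroup H] [InnerProductSpace ℂ H] [CompleteSpace H]
    (b : HilbertBasis (ℤ × Fin 2) ℂ H) (r l : ℤ → ℝ) (n : ℤ) (i : Fin 2) : H :=
  if i = 0 then ((r n : ℝ) : ℂ) • b (n, 0)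
  else ((r n : ℝ) : ℂ) • (b (n, 1) + ((l n : ℝ) : ℂ) • b (n, 0))

/-- Gram matrices -/
def gram {H : Type} [NormedAddCommGroup H] [InnerProductSpace ℂ H] [CompleteSpace H]
    (b : HilbertBasis (ℤ × Fin 2) ℂ H) (r l : ℤ → ℝ) (Xi : H →L[ℂ] H) (n : ℤ) :
    Matrix (Fin 2) (Fin 2) ℂ :=
  Matrix.of fun i j => ⟪Xi (xv b r l n i), Xi (xv b r l n j)⟫_ℂ

/-- the matrix a0 + a1 J -/
def ma (a0 a1 : ℂ) : Matrix (Fin 2) (Fin 2) ℂ := !![a0, a1; 0, a0]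

def Stm_N8b : Prop := ∀ (H : Type) [NormedAddCommGroup H] [InnerProductSpace ℂ H] [CompleteSpace H]
  (b : HilbertBasis (ℤ × Fin 2) ℂ H) (r l : ℤ → ℝ) (T T' J : H →L[ℂ] H), Model b r l T T' J →
  ∀ (S X Xi : H →L[ℂ] H) (U : G → H →L[ℂ] H) (P : ℤ → H →L[ℂ] H), Dec b T S J X Xi U P →
  ∀ e f : ℤ → H →L[ℂ] H, (∀ n : ℤ,
    e n = P (n + 1) * e n ∧ e n = e n * P n ∧ f n = P (n - 1) * f n ∧ f n = f n * P n ∧
    e n * (Xi * J * X) = (Xi * J * X) * e n ∧ f n * (Xi * J * X) = (Xi * J * X) * f n ∧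
    e (n + 1) * S + S * S * P n = S * e n ∧
    f (n + 1) * S = S * f n + P n ∧
    f (n + 1) = - ContinuousLinearMap.adjoint (e n)) →
  ∃ a0 a1 b0 b1 : ℂ, ∀ n : ℤ,
    (ma (a0 - n) a1)ᴴ * gram b r l Xi (n + 1) + gram b r l Xi n * ma (b0 + n + 1) b1 = 0

/-- N9: the algebra: the recursion is incompatible with growth of determinant and of the ratio of
the diagonal entries. -/
def Stm_N9 : Prop := ∀ (q : ℤ → Matrix (Fin 2) (Fin 2) ℂ) (a0 a1 b0 b1 : ℂ),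
  (∀ n, (q n).PosDef) →
  (∀ n : ℤ, (ma (a0 - n) a1)ᴴ * q (n + 1) + q n * ma (b0 + n + 1) b1 = 0) →
  Tendsto (fun n => ((q n).det).re) atTop atTop →
  Tendsto (fun n => ((q n) 1 1).re / ((q n) 0 0).re) atTop atTop → False

/-- N10: growth of the Gram matrices. -/
def Stm_N10 : Prop := ∀ (H : Type) [NormedAddCommGroup H] [InnerProductSpace ℂ H] [CompleteSpace H]
  (b : HilbertBasis (ℤ × Fin 2) ℂ H) (r l : ℤ → ℝ) (T T' J : H →L[ℂ] H), Model b r l T T' J →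
  ∀ (X Xi : H →L[ℂ] H), X * Xi = 1 → Xi * X = 1 →
    (∀ n, (gram b r l Xi n).PosDef) ∧
    Tendsto (fun n => ((gram b r l Xi n).det).re) atTop atTop ∧
    Tendsto (fun n => ((gram b r l Xi n) 1 1).re / ((gram b r l Xi n) 0 0).re) atTop atTop

/-- N: the negative theorem. -/
def Stm_N : Prop := ∀ (H : Type) [NormedAddCommGroup H] [InnerProductSpace ℂ H] [CompleteSpace H]
  (b : HilbertBasis (ℤ × Fin 2) ℂ H) (r l : ℤ → ℝ) (T T' J : H →L[ℂ] H), Model b r l T T' J →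
  ∀ (Γ Γi : G → H →L[ℂ] H), Gam T J Γ Γi →
  ∀ (S X Xi : H →L[ℂ] H) (U : G → H →L[ℂ] H), Sim T S X Xi U → False

/-! ## Positive side -/

/-- P1: the measure mS: probability, carried by the circle, Parseval. -/
def Stm_P1 : Prop := IsProbabilityMeasure mS ∧ (∀ᵐ z ∂mS, ‖z‖ = 1) ∧
  (∀ f g : ℂ → ℂ, MemLp f 2 mS → MemLp g 2 mS →
    HasSum (fun n : ℤ => fc f n * conj (fc g n)) (∫ z, f z * conj (g z) ∂mS)) ∧
  (∀ f : ℂ → ℂ, CS f → MemLp f 2 mS ∧ Integrable f mS)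

/-- P2: change of variables on the circle. -/
def Stm_P2 : Prop := ∀ g : G,
  Measure.map g.act (mS.withDensity (fun z => ENNReal.ofReal (g.jac z))) = mS

/-- P2b: elementary facts on the action. -/
def Stm_P2b : Prop :=
  (∀ (g : G) (z : ℂ), ‖z‖ ≤ 1 → conj g.β * z + conj g.α ≠ 0) ∧
  (∀ (g : G) (z : ℂ), ‖z‖ = 1 → ‖g.act z‖ = 1) ∧
  (∀ (g : G) (z : ℂ), ‖z‖ < 1 → ‖g.act z‖ < 1) ∧
  (∀ (g h : G) (z : ℂ), ‖z‖ ≤ 1 → (g * h).act z = g.act (h.act z)) ∧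
  (∀ (g h : G) (z : ℂ), ‖z‖ = 1 → (g * h).jac z = g.jac (h.act z) * h.jac z) ∧
  (∀ (g : G) (z : ℂ), ‖z‖ = 1 → 0 < g.jac z) ∧
  (∀ (g : G) (z w : ℂ), ‖z‖ = 1 → ‖w‖ = 1 →
    ‖g.act z - g.act w‖ ^ 2 = g.jac z * g.jac w * ‖z - w‖ ^ 2) ∧
  (∀ (g : G) (f : ℂ → ℂ), CS f → CS (pg g f) ∧ CS (lg g f)) ∧
  (∀ g : G, Measurable g.act ∧ Measurable g.jac)

/-- P3: Fourier coefficients of the kernels. -/
def Stm_P3 : Prop :=
  Integrable (fun z : ℂ => ‖1 - z‖ ^ (-(1 / 2) : ℝ)) mS ∧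
  Integrable (fun z : ℂ => ‖1 - z‖ ^ (-(1 / 2) : ℝ) * Real.log ‖1 - z‖) mS ∧
  ∃ A0 L0 : ℝ, 0 < A0 ∧ ∀ n : ℤ,
    ∫ z, ((‖1 - z‖ ^ (-(1 / 2) : ℝ) : ℝ) : ℂ) * z ^ (-n) ∂mS = ((A0 * aa n : ℝ) : ℂ) ∧
    ∫ z, ((‖1 - z‖ ^ (-(1 / 2) : ℝ) * Real.log ‖1 - z‖ : ℝ) : ℂ) * z ^ (-n) ∂mS =
      ((A0 * aa n * (L0 - lam n) : ℝ) : ℂ)

/-- P4: from a convolution kernel k on the circle to the form ∑ k_n f_n conj(h_n). -/
def Stm_P4 : Prop := ∀ (k : ℂ → ℝ), Measurable k → Integrable k mS →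
  (∀ z, k (conj z) = k z) → ∀ f h : ℂ → ℂ, CS f → CS h →
  Integrable (fun p : ℂ × ℂ => ((k (p.1 * conj p.2) : ℝ) : ℂ) * f p.1 * conj (h p.2))
    (mS.prod mS) ∧
  HasSum (fun n : ℤ => (∫ z, ((k z : ℝ) : ℂ) * z ^ (-n) ∂mS) * fc f n * conj (fc h n))
    (∫ p : ℂ × ℂ, ((k (p.1 * conj p.2) : ℝ) : ℂ) * f p.1 * conj (h p.2) ∂(mS.prod mS))

/-- P5: the coordinates of jE, jL, density of jE, size estimates. -/
def Stm_P5a : Prop :=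
  (∀ f, CS f → ∀ n : ℤ, (jE f : E) n = ((Real.sqrt (aa n) : ℝ) : ℂ) * fc f n) ∧
  (∀ f, CS f → ∀ n : ℤ, (jL f : E) n = ((lam n * Real.sqrt (aa n) : ℝ) : ℂ) * fc f n) ∧
  (∀ f g, CS f → CS g → jE (fun z => f z + g z) = jE f + jE g ∧
    jL (fun z => f z + g z) = jL f + jL g) ∧
  (∀ (c : ℂ) f, CS f → jE (fun z => c * f z) = c • jE f ∧ jL (fun z => c * f z) = c • jL f) ∧
  (∀ f g, CS f → CS g → (∀ z, ‖z‖ = 1 → f z = g z) → jE f = jE g ∧ jL f = jL g) ∧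
  (∃ K : ℝ, ∀ f, CS f → ∀ M : ℝ, (∀ z, ‖z‖ = 1 → ‖f z‖ ≤ M) → ‖jE f‖ ≤ K * M ∧ ‖jL f‖ ≤ K * M) ∧
  (∀ n : ℤ, ee n = jE (fun z => (((Real.sqrt (aa n))⁻¹ : ℝ) : ℂ) * z ^ n)) ∧
  (∀ n : ℤ, jL (fun z => (((Real.sqrt (aa n))⁻¹ : ℝ) : ℂ) * z ^ n) = ((lam n : ℝ) : ℂ) • ee n) ∧
  Dense (Set.range fun f : {f : ℂ → ℂ // CS f} => jE f.1)

/-- P5: invariance of the two forms. -/
def Stm_P5 : Prop := ∀ (g : G) (f h : ℂ → ℂ), CS f → CS h →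
  ⟪jE (pg g h), jE (pg g f)⟫_ℂ = ⟪jE h, jE f⟫_ℂ ∧
  ⟪jE (pg g h), jL (pg g f)⟫_ℂ = ⟪jE h, jL f⟫_ℂ +
    (1 / 2 : ℂ) * (⟪jE (pg g h), jE (lg g (pg g f))⟫_ℂ + ⟪jE (lg g (pg g h)), jE (pg g f)⟫_ℂ)

/-- P6a: Fourier coefficients of log |g'|. -/
def Stm_P6a : Prop := ∀ (g : G) (n : ℤ), n ≠ 0 →
  ‖fc (fun z => ((Real.log (g.jac z) : ℝ) : ℂ)) n‖ ≤ 1 / |(n : ℝ)|

/-- P6b: the Schur test. -/
def Stm_P6b : Prop := ∃ K : ℝ, ∀ c : ℤ → ℂ, (∀ k : ℤ, k ≠ 0 → ‖c k‖ ≤ 1 / |(k : ℝ)|) →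
  ∃ A : E →L[ℂ] E, ‖A‖ ≤ K ∧ ∀ m n : ℤ, ⟪ee m, A (ee n)⟫_ℂ =
    (1 / 2 : ℂ) * c (m - n) *
      ((Real.sqrt (aa m / aa n) - Real.sqrt (aa n / aa m) : ℝ) : ℂ)

/-- P6: the skew part of multiplication by log |g'| is uniformly bounded. -/
def Stm_P6 : Prop := ∃ K : ℝ, ∀ g : G, ∃ A : E →L[ℂ] E, ‖A‖ ≤ K ∧ ∀ u v : ℂ → ℂ, CS u → CS v →
  ⟪jE v, A (jE u)⟫_ℂ = (1 / 2 : ℂ) * (⟪jE v, jE (lg g u)⟫_ℂ - ⟪jE (lg g v), jE u⟫_ℂ)

/-- P7a: the unitary representation on ℓ². -/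
def Stm_P7a : Prop := ∃ p : G → E →L[ℂ] E, (∀ g, p g ∈ unitary (E →L[ℂ] E)) ∧
  ∀ (g : G) (f : ℂ → ℂ), CS f → p g (jE f) = jE (pg g f)

/-- the vector attached to (f1, f2) -/
def jj (f1 f2 : ℂ → ℂ) : H2 := pr (jE f1 - jL f2) (jE f2)

/-- P7: the representation on ℓ² ⊕ ℓ². -/
def Stm_P7 : Prop := ∃ Γ : G → H2 →L[ℂ] H2, (∃ K : ℝ, ∀ g, ‖Γ g‖ ≤ K) ∧
  (∀ (g : G) (f1 f2 : ℂ → ℂ), CS f1 → CS f2 →
    Γ g (jj f1 f2) = jj (fun z => pg g f1 z + lg g (pg g f2) z) (pg g f2)) ∧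
  (∀ g, Γ g * Jop = Jop * Γ g) ∧
  (∀ g, ContinuousLinearMap.adjoint (Γ g) * Fop * Γ g = Fop)

/-- P8: consequences: homomorphism, continuity. -/
def Stm_P8 : Prop := ∀ Γ : G → H2 →L[ℂ] H2, (∃ K : ℝ, ∀ g, ‖Γ g‖ ≤ K) →
  (∀ (g : G) (f1 f2 : ℂ → ℂ), CS f1 → CS f2 →
    Γ g (jj f1 f2) = jj (fun z => pg g f1 z + lg g (pg g f2) z) (pg g f2)) →
  Γ 1 = 1 ∧ (∀ g h, Γ (g * h) = Γ h * Γ g) ∧ (∀ g, Γ g.neg = Γ g) ∧
  (∀ x, Continuous (fun g => Γ g x))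

/-- weights of the shift on the negative Sobolev side -/
def Tneg (T : H2 →L[ℂ] H2) : Prop :=
  (∀ n : ℤ, T (pr (ee n) 0) = ((Real.sqrt (aa (n + 1) / aa n) : ℝ) : ℂ) • pr (ee (n + 1)) 0) ∧
  (∀ n : ℤ, T (pr 0 (ee n)) = ((Real.sqrt (aa (n + 1) / aa n) : ℝ) : ℂ) •
    (pr 0 (ee (n + 1)) - ((lam (n + 1) - lam n : ℝ) : ℂ) • pr (ee (n + 1)) 0))

/-- P9: intertwining on the negative Sobolev side. -/
def Stm_P9 : Prop := ∀ T : H2 →L[ℂ] H2, Tneg T →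
  ∀ Γ : G → H2 →L[ℂ] H2, (∃ K : ℝ, ∀ g, ‖Γ g‖ ≤ K) →
  (∀ (g : G) (f1 f2 : ℂ → ℂ), CS f1 → CS f2 →
    Γ g (jj f1 f2) = jj (fun z => pg g f1 z + lg g (pg g f2) z) (pg g f2)) →
  ∀ g, Intw g T (Γ g)

/-- weights r, l of the positive model -/
def rr (n : ℤ) : ℝ := (Real.sqrt (aa n))⁻¹

/-- P10: existence of the model operators on ℓ² ⊕ ℓ². -/
def Stm_P10 : Prop := ∃ (b : HilbertBasis (ℤ × Fin 2) ℂ H2) (T T' : H2 →L[ℂ] H2),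
  (∀ n, b (n, 0) = pr (ee n) 0) ∧ (∀ n, b (n, 1) = pr 0 (ee n)) ∧ Model b rr lam T T' Jop ∧
  Tneg (Fop * ContinuousLinearMap.adjoint T' * Fop)

/-- P11: passing from the negative to the positive side. -/
def Stm_P11 : Prop := ∀ (b : HilbertBasis (ℤ × Fin 2) ℂ H2) (r l : ℤ → ℝ)
  (T T' : H2 →L[ℂ] H2), Model b r l T T' Jop → ∀ (A B : H2 →L[ℂ] H2), A * B = 1 → B * A = 1 →
  ContinuousLinearMap.adjoint A * Fop * A = Fop → ∀ g : G,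
  Intw g (Fop * ContinuousLinearMap.adjoint T' * Fop) A → Intw g T A

/-- asymptotics of aa and lam -/
def Stm_P10a : Prop := (∀ n, 0 < rr n) ∧ rr 0 = 1 ∧ lam 0 = 0 ∧ Tendsto rr cofinite atTop ∧
  Tendsto lam cofinite atTop ∧ Tendsto (fun n => rr (n + 1) / rr n) cofinite (𝓝 1) ∧
  Tendsto (fun n => lam (n + 1) - lam n) cofinite (𝓝 0) ∧
  Tendsto (fun n => lam n / rr n) cofinite (𝓝 0) ∧
  (∃ K : ℝ, ∀ (n : ℤ) (j : ℕ), rr (n + j) / rr n ≤ K * ((j : ℝ) + 1) ∧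
    rr n / rr (n + j) ≤ K * ((j : ℝ) + 1) ∧ |lam (n + j) - lam n| ≤ K * ((j : ℝ) + 1)) ∧
  (∃ c C : ℝ, 0 < c ∧ ∀ n : ℤ, c * (|(n : ℝ)| + 1) ^ (-(1 / 2) : ℝ) ≤ aa n ∧
    aa n ≤ C * (|(n : ℝ)| + 1) ^ (-(1 / 2) : ℝ))

/-- P: the positive theorem. -/
def Stm_P : Prop := ∃ (b : HilbertBasis (ℤ × Fin 2) ℂ H2) (r l : ℤ → ℝ)
  (T T' J : H2 →L[ℂ] H2) (Γ Γi : G → H2 →L[ℂ] H2), Model b r l T T' J ∧ Gam T J Γ Γi ∧
  Γ 1 = 1 ∧ (∀ g h, Γ (g * h) = Γ h * Γ g) ∧ (∀ g, Γ g.neg = Γ g)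

end

end W58.WH
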